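import Pool.Agent.Lib.MP_7f581e_K.T.Defs
import Pool.Agent.Lib.MP_7f581e_K.V.Cls
import Pool.Agent.Lib.MP_7f581e_ntC.Factors

/-!
# C41 (MP_7f581e_nt): the groups of the uniform theorem

The groups which are built from simple groups of order at most `N` and from the kernel factors of
the closure theorem.
-/

set_option autoImplicit false

namespace MP7U

open MP7K MP7fC

/-- `T` is a finite nonabelian simple group of even order `≤ N`, and `B` is a group of
automorphisms of `T` which is isomorphic to a subgroup of `PGL₂(𝔽_p)` (the quotient of `GL₂(𝔽_p)`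
by its center). -/
def IsTypN (N p : ℕ) [Fact p.Prime] (T : Type) [Group T] (B : Subgroup (MulAut T)) : Prop :=
  Finite T ∧ IsSimpleGroup T ∧ (∃ a b : T, a * b ≠ b * a) ∧ 2 ∣ Nat.card T ∧ Nat.card T ≤ N ∧
    ∃ ρ : B →* GL (Fin 2) (ZMod p) ⧸ Subgroup.center (GL (Fin 2) (ZMod p)),
      Function.Injective ρ

/-- The kernels which are allowed: (a) the composition factors are in `IsKernelFactor p`, or
(b) the kernel is a power `T ^ n`, where `(T, B)` is as in `IsTypN`, and the group acts on it through
`A ≀ Sym(n)`, where `A` is generated by `B` and the inner automorphisms of `T`. -/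
def GoodN (N p : ℕ) [Fact p.Prime] {G : Type} [Group G] (M : Subgroup G) : Prop :=
  HasFactors (IsKernelFactor p) M ∨
  ∃ (T : Type) (_ : Group T) (B : Subgroup (MulAut T)), IsTypN N p T B ∧
    ActsThrough M ((MulAut.conj (G := T)).range ⊔ B)

/-- `Q` is obtained from `G` by finitely many surjective homomorphisms
`G = G₀ → G₁ → ... → G_m ≃ Q`, all of whose kernels are allowed. -/
inductive TowerN (N p : ℕ) [Fact p.Prime] (Q : Type) [Group Q] : (G : Type) → [Group G] → Prop
  | base (G : Type) [Group G] (e : G ≃* Q) : TowerN N p Q G
  | step (G H : Type) [Group G] [Group H] (f : G →* H) (hf : Function.Surjective f)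
      (hker : GoodN N p f.ker) (h : TowerN N p Q H) : TowerN N p Q G

/-- The allowed composition factors: `IsKernelFactor p`, or simple groups `T` of even order `≤ N`
such that `Aut T` is generated by the inner automorphisms and by a subgroup which is isomorphic to
a subgroup of `PGL₂(𝔽_p)`. -/
def IsFacN (N p : ℕ) [Fact p.Prime] (T : Type) [Group T] : Prop :=
  IsKernelFactor p T ∨ ∃ B : Subgroup (MulAut T), IsTypN N p T B ∧
    (MulAut.conj (G := T)).range ⊔ B = ⊤

end MP7U
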